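import Pool.Agent.N889.AO.Stm

/-!
# Project AO: block Vandermonde diagonalisation
-/

set_option autoImplicit false

namespace Pool.Agent.N123.AO

open Matrix Polynomial Finset
open Pool.Agent.N889.AO

section

variable {n : ℕ} (s : Setoid (Fin n))

open Classical in
/-- the class of `i` -/
noncomputable def cls (i : Fin n) : Finset (Fin n) := univ.filter (fun j => s i j)

open Classical in
/-- the position of `i` in its class -/
noncomputable def pos (i : Fin n) : ℕ := (univ.filter (fun j => j < i ∧ s i j)).card

theorem mem_cls {i j : Fin n} : j ∈ cls s i ↔ s i j := by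
  simp [cls]

theorem card_cls (i : Fin n) : Nat.card {j // s i j} = (cls s i).card := by
  classical
  rw [Nat.card_eq_fintype_card, Fintype.card_subtype]
  congr 1

theorem cls_eq {i j : Fin n} (h : s i j) : cls s i = cls s j := by
  ext k
  rw [mem_cls, mem_cls]
  exact ⟨fun h' => s.trans (s.symm h) h', fun h' => s.trans h h'⟩

theorem pos_lt (i : Fin n) : pos s i < (cls s i).card := by
  classical
  refine Finset.card_lt_card ?_
  rw [Finset.ssubset_iff_of_subset]
  · refine ⟨i, (mem_cls s).2 (s.refl i), ?_⟩
    simp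
  · intro j hj
    rw [Finset.mem_filter] at hj
    rw [mem_cls]
    exact hj.2.2

theorem pos_lt_pos {i j : Fin n} (h : s i j) (hij : i < j) : pos s i < pos s j := by
  classical
  refine Finset.card_lt_card ?_
  rw [Finset.ssubset_iff_of_subset]
  · refine ⟨i, ?_, ?_⟩
    · simp only [mem_filter, mem_univ, true_and]
      exact ⟨hij, s.symm h⟩
    · simp
  · intro k hk
    simp only [mem_filter, mem_univ, true_and] at hk ⊢
    exact ⟨hk.1.trans hij, s.trans (s.symm h) hk.2⟩

theorem pos_inj {i j : Fin n} (h : s i j) (hij : pos s i = pos s j) : i = j := by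
  rcases lt_trichotomy i j with h1 | h1 | h1
  · exact absurd hij (pos_lt_pos s h h1).ne
  · exact h1
  · exact absurd hij (pos_lt_pos s (s.symm h) h1).ne'

theorem pos_surj (i : Fin n) {m : ℕ} (hm : m < (cls s i).card) : ∃ j, s i j ∧ pos s j = m := by
  classical
  have h1 : (cls s i).image (pos s) = range (cls s i).card := by
    refine Finset.eq_of_subset_of_card_le ?_ ?_
    · intro m hm
      obtain ⟨j, hj, rfl⟩ := Finset.mem_image.1 hm
      rw [mem_cls] at hj
      rw [mem_range, cls_eq s hj]
      exact pos_lt s j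
    · rw [card_range, Finset.card_image_of_injOn]
      intro j hj k hk h
      have hj' := (mem_cls s).1 (Finset.mem_coe.1 hj)
      have hk' := (mem_cls s).1 (Finset.mem_coe.1 hk)
      exact pos_inj s (s.trans (s.symm hj') hk') h
  have h2 : m ∈ (cls s i).image (pos s) := by
    rw [h1, mem_range]
    exact hm
  obtain ⟨j, hj, hjm⟩ := Finset.mem_image.1 h2
  exact ⟨j, (mem_cls s).1 hj, hjm⟩

end

/-- enumeration of the roots of `X ^ d - g` -/
theorem roots_enum {K : Type} [Field K] [IsAlgClosed K] {g : K} (hg : g ≠ 0) {d : ℕ}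
    (hd : (d : K) ≠ 0) : ∃ r : ℕ → K, (∀ m < d, r m ^ d = g) ∧
      ∀ m < d, ∀ m' < d, r m = r m' → m = m' := by
  classical
  have hd0 : d ≠ 0 := by
    rintro rfl
    simp at hd
  have hsep : (X ^ d - C g : K[X]).Separable := separable_X_pow_sub_C g hd hg
  have hcard : (X ^ d - C g : K[X]).roots.toFinset.card = d := by
    rw [Multiset.toFinset_card_of_nodup (nodup_roots hsep),
      ← (IsAlgClosed.splits (X ^ d - C g : K[X])).natDegree_eq_card_roots, natDegree_X_pow_sub_C]
  have e := ((X ^ d - C g : K[X]).roots.toFinset.equivFinOfCardEq hcard).symm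
  refine ⟨fun m => if h : m < d then (e ⟨m, h⟩ : K) else 0, fun m hm => ?_,
    fun m hm m' hm' h => ?_⟩
  · simp only [dif_pos hm]
    have h1 := (e ⟨m, hm⟩).2
    rw [Multiset.mem_toFinset, mem_roots (monic_X_pow_sub_C g hd0).ne_zero, IsRoot.def] at h1
    simp only [eval_sub, eval_pow, eval_X, eval_C] at h1
    exact sub_eq_zero.1 h1
  · simp only [dif_pos hm, dif_pos hm'] at h
    have h1 := e.injective (Subtype.ext h)
    simpa using h1

theorem stmBlk : StmBlk := by
  classical
  intro n s p hp g hg hn
  have hnp : n < p := by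
    by_contra h
    push Not at h
    have h1 : p ∣ n.factorial := (Nat.dvd_factorial hp.out.pos h)
    have h2 := Nat.le_of_dvd (by have := hp.out.two_le; omega) (h1.trans hn)
    have := hp.out.two_le
    omega
  let K := AlgebraicClosure (ZMod p)
  set g' : K := algebraMap (ZMod p) K g with hg'
  have hg0 : g' ≠ 0 := (_root_.map_ne_zero _).2 hg
  have hdK : ∀ d : ℕ, 1 ≤ d → d ≤ n → (d : K) ≠ 0 := by
    intro d h1 h2 h0
    have h3 : algebraMap (ZMod p) K (d : ZMod p) = 0 := by rw [map_natCast]; exact h0
    rw [map_eq_zero, ZMod.natCast_eq_zero_iff] at h3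
    have := Nat.le_of_dvd h1 h3
    omega
  have hr : ∀ d : ℕ, ∃ r : ℕ → K, 1 ≤ d → d ≤ n → (∀ m < d, r m ^ d = g') ∧
      ∀ m < d, ∀ m' < d, r m = r m' → m = m' := by
    intro d
    by_cases h1 : 1 ≤ d
    · by_cases h2 : d ≤ n
      · obtain ⟨r, hr⟩ := roots_enum hg0 (hdK d h1 h2)
        exact ⟨r, fun _ _ => hr⟩
      · exact ⟨fun _ => 0, fun _ h => absurd h h2⟩
    · exact ⟨fun _ => 0, fun h => absurd h h1⟩
  choose r hr using hr
  set d : Fin n → ℕ := fun i => (cls s i).card with hd
  have hd1 : ∀ i, 1 ≤ d i := fun i => (Nat.zero_le _).trans_lt (pos_lt s i)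
  have hdn : ∀ i, d i ≤ n := fun i => by
    refine (Finset.card_le_univ _).trans ?_
    rw [Fintype.card_fin]
  have hdd : ∀ {i j}, s i j → d i = d j := fun {i j} h => by
    simp only [hd]
    rw [cls_eq s h]
  set θ : Fin n → K := fun i => r (d i) (pos s i) with hθ
  have hθd : ∀ i, θ i ^ d i = g' := fun i => (hr (d i) (hd1 i) (hdn i)).1 _ (pos_lt s i)
  have hθi : ∀ {i j}, s i j → θ i = θ j → i = j := by
    intro i j h hij
    refine pos_inj s h ?_
    simp only [hθ] at hij
    rw [← hdd h] at hij
    refine (hr (d i) (hd1 i) (hdn i)).2 _ (pos_lt s i) _ ?_ hij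
    rw [hdd h]
    exact pos_lt s j
  set a : Fin n → ℕ := fun i => (Quotient.out (Quotient.mk s i) : Fin n).val + 1 with ha
  have haa : ∀ i j, a i = a j ↔ s i j := by
    intro i j
    simp only [ha]
    constructor
    · intro h
      have h1 : Quotient.out (Quotient.mk s i) = Quotient.out (Quotient.mk s j) :=
        Fin.ext (Nat.succ_injective h)
      exact Quotient.exact (Quotient.out_injective h1)
    · intro h
      rw [Quotient.sound h]
  set Q : Matrix (Fin n) (Fin n) K := Matrix.of fun i j => if s i j then θ i ^ pos s j else 0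
    with hQ
  have hQa : ∀ i j, Q i j = if s i j then θ i ^ pos s j else 0 := fun i j => rfl
  set S : Matrix (Fin n) (Fin n) (ZMod p) := Matrix.of fun j k => if s j k then
    (if pos s j = pos s k + 1 then 1 else if pos s j = 0 ∧ pos s k + 1 = d k then g else 0) else 0
    with hS
  have hSa : ∀ j k, S j k = if s j k then
    (if pos s j = pos s k + 1 then 1 else if pos s j = 0 ∧ pos s k + 1 = d k then g else 0)
      else 0 := fun j k => rfl
  set A : Matrix (Fin n) (Fin n) (ZMod p) := Matrix.diagonal fun i => (a i : ZMod p) with hA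
  -- supports
  have sQ : ∀ i j, ¬ s i j → Q i j = 0 := fun i j h => by rw [hQa, if_neg h]
  have sS : ∀ i j, ¬ s i j → S i j = 0 := fun i j h => by rw [hSa, if_neg h]
  have sSS : ∀ i j, ¬ s i j → (S * S) i j = 0 := by
    intro i j h
    rw [Matrix.mul_apply]
    refine Finset.sum_eq_zero fun k _ => ?_
    by_cases h1 : s i k
    · rw [sS k j fun h2 => h (s.trans h1 h2), mul_zero]
    · rw [sS i k h1, zero_mul]
  -- the main identity
  have key : Q * S.map (algebraMap (ZMod p) K) = Matrix.diagonal θ * Q := by
    ext i k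
    rw [Matrix.mul_apply, Matrix.diagonal_mul]
    by_cases hik : s i k
    · rw [hQa i k, if_pos hik, ← pow_succ']
      rcases Nat.lt_or_ge (pos s k + 1) (d k) with h1 | h1
      · obtain ⟨j, hj, hjp⟩ := pos_surj s k h1
        rw [Finset.sum_eq_single j]
        · rw [hQa, if_pos (s.trans hik hj), Matrix.map_apply, hSa, if_pos (s.symm hj), if_pos hjp,
            map_one, mul_one, hjp]
        · intro l _ hl
          by_cases hlk : s l k
          · have h2 : pos s l ≠ pos s k + 1 := by
              intro h
              exact hl (pos_inj s (s.trans hlk hj) (by rw [h, hjp]))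
            have h3 : ¬ (pos s l = 0 ∧ pos s k + 1 = d k) := fun h => h1.ne h.2
            rw [Matrix.map_apply, hSa, if_pos hlk, if_neg h2, if_neg h3, map_zero, mul_zero]
          · rw [Matrix.map_apply, sS l k hlk, map_zero, mul_zero]
        · intro h
          exact absurd (Finset.mem_univ _) h
      · have h1' : pos s k + 1 = d k := le_antisymm (pos_lt s k) h1
        obtain ⟨j, hj, hjp⟩ := pos_surj s k (show 0 < (cls s k).card from hd1 k)
        rw [Finset.sum_eq_single j]
        · have h2 : pos s j ≠ pos s k + 1 := by rw [hjp]; omega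
          rw [hQa, if_pos (s.trans hik hj), Matrix.map_apply, hSa, if_pos (s.symm hj), if_neg h2,
            if_pos ⟨hjp, h1'⟩, hjp, pow_zero, one_mul, h1', ← hdd hik, hθd]
        · intro l _ hl
          by_cases hlk : s l k
          · have h2 : pos s l ≠ pos s k + 1 := by
              rw [h1', ← hdd hlk]
              exact (pos_lt s l).ne
            have h3 : ¬ (pos s l = 0 ∧ pos s k + 1 = d k) := fun h =>
              hl (pos_inj s (s.trans hlk hj) (by rw [h.1, hjp]))
            rw [Matrix.map_apply, hSa, if_pos hlk, if_neg h2, if_neg h3, map_zero, mul_zero]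
          · rw [Matrix.map_apply, sS l k hlk, map_zero, mul_zero]
        · intro h
          exact absurd (Finset.mem_univ _) h
    · rw [sQ i k hik, mul_zero]
      refine Finset.sum_eq_zero fun j _ => ?_
      by_cases h1 : s i j
      · rw [Matrix.map_apply, sS j k fun h2 => hik (s.trans h1 h2), map_zero, mul_zero]
      · rw [sQ i j h1, zero_mul]
  have hQA : Q * A.map (algebraMap (ZMod p) K) = Matrix.diagonal (fun i => (a i : K)) * Q := by
    have h1 : A.map (algebraMap (ZMod p) K) = Matrix.diagonal (fun i => (a i : K)) := by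
      rw [hA, Matrix.diagonal_map (map_zero _)]
      congr 1
    rw [h1]
    ext i k
    rw [Matrix.mul_diagonal, Matrix.diagonal_mul]
    by_cases hik : s i k
    · rw [(haa i k).2 hik, mul_comm]
    · rw [sQ i k hik, mul_zero, zero_mul]
  refine ⟨K, inferInstance, inferInstance, A * (S + S * S), Q, a, θ, ?_, ?_, ?_, ?_, ?_, haa, ?_⟩
  · intro i j h
    by_contra hij
    have hji : ¬ s j i := fun h' => hij (s.symm h')
    apply h
    rw [hA, Matrix.diagonal_mul, Matrix.add_apply, sS j i hji, sSS j i hji, add_zero, mul_zero]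
  · intro i j h
    by_contra hij
    exact h (sQ j i fun h' => hij (s.symm h'))
  · rw [isUnit_iff_ne_zero]
    intro h0
    obtain ⟨x, hx, hQx⟩ := Matrix.exists_mulVec_eq_zero_iff.2 h0
    apply hx
    funext i0
    have h1 : (∑ j ∈ cls s i0, C (x j) * X ^ pos s j : K[X]) = 0 := by
      refine eq_zero_of_degree_lt_of_eval_index_eq_zero (s := cls s i0) (v := θ) ?_ ?_ ?_
      · intro i hi j hj hij
        have hi' := (mem_cls s).1 (Finset.mem_coe.1 hi)
        have hj' := (mem_cls s).1 (Finset.mem_coe.1 hj)
        exact hθi (s.trans (s.symm hi') hj') hij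
      · refine (degree_sum_le _ _).trans_lt ?_
        rw [Finset.sup_lt_iff (WithBot.bot_lt_coe _)]
        intro j hj
        refine (degree_C_mul_X_pow_le _ _).trans_lt ?_
        rw [cls_eq s ((mem_cls s).1 hj)]
        exact_mod_cast pos_lt s j
      · intro i hi
        have hi' := (mem_cls s).1 hi
        rw [eval_finsetSum]
        have h2 := congrFun hQx i
        rw [Matrix.mulVec, dotProduct, Pi.zero_apply] at h2
        rw [← h2]
        rw [cls_eq s hi']
        unfold cls
        rw [Finset.sum_filter]
        refine Finset.sum_congr rfl fun j _ => ?_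
        rw [hQa]
        split_ifs
        · simp only [eval_mul, eval_C, eval_pow, eval_X]
          ring
        · rw [zero_mul]
    have h3 := congrArg (fun P => coeff P (pos s i0)) h1
    simp only [finsetSum_coeff, coeff_C_mul, coeff_X_pow, coeff_zero] at h3
    rw [Finset.sum_eq_single i0] at h3
    · simpa using h3
    · intro j hj hj0
      rw [if_neg, mul_zero]
      intro h
      exact hj0 (pos_inj s ((mem_cls s).1 hj) h).symm
    · intro h
      exact absurd ((mem_cls s).2 (s.refl i0)) h
  · intro i
    rw [card_cls]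
    exact hθd i
  · intro i
    simp only [ha]
    have := (Quotient.out (Quotient.mk s i) : Fin n).isLt
    omega
  · rw [Matrix.map_mul, Matrix.map_add _ (fun _ _ => map_add _ _ _), Matrix.map_mul,
      ← Matrix.mul_assoc, hQA, Matrix.mul_assoc, Matrix.mul_add, ← Matrix.mul_assoc, key,
      Matrix.mul_assoc _ Q _, key]
    rw [← Matrix.mul_assoc (Matrix.diagonal θ), ← Matrix.add_mul, ← Matrix.mul_assoc,
      Matrix.diagonal_mul_diagonal, Matrix.diagonal_add, Matrix.diagonal_mul_diagonal]
    congr 2
    funext i
    ring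

end Pool.Agent.N123.AO
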